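import Pool.Agent.Helper50.BP.St

set_option autoImplicit false

namespace Pool.Agent.Helper41.BP

open Pool.Agent.Helper50.BP Pool.Agent.Helper43.GD Pool.Agent.Helper73.BG

private lemma do_num (r k l h : ℕ) (hr : r.Prime) (hr5 : 5 ≤ r) (hrk : 2 * h ∣ r * k)
    (hg : Nat.gcd (Nat.gcd k l) h = 1) (s : ℕ) (hs : s.Prime) (h1 : s ∣ 2 * h)
    (h2 : s ∣ k + l) : ¬ s ∣ h + 3 * k := by
  intro h3
  have key : s ∣ k → s ∣ h → False := by
    intro hk hh
    have hl : s ∣ l := (Nat.dvd_add_right hk).1 h2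
    have h4 : s ∣ Nat.gcd (Nat.gcd k l) h := Nat.dvd_gcd (Nat.dvd_gcd hk hl) hh
    rw [hg] at h4
    exact hs.one_lt.ne' (Nat.dvd_one.1 h4)
  have hsk : s ∣ r * k := h1.trans hrk
  by_cases hs2 : s = 2
  · subst hs2
    have hk : 2 ∣ k := by
      rcases (Nat.Prime.dvd_mul hs).1 hsk with h4 | h4
      · exfalso
        have := (Nat.prime_dvd_prime_iff_eq hs hr).1 h4
        omega
      · exact h4
    have hh : 2 ∣ h := by omega
    exact key hk hh
  · have hh : s ∣ h := by
      rcases (Nat.Prime.dvd_mul hs).1 h1 with h4 | h4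
      · exact absurd ((Nat.prime_dvd_prime_iff_eq hs Nat.prime_two).1 h4) hs2
      · exact h4
    have h5 : s ∣ 3 * k := (Nat.dvd_add_right hh).1 h3
    rcases (Nat.Prime.dvd_mul hs).1 h5 with h6 | h6
    · have h7 : s = 3 := (Nat.prime_dvd_prime_iff_eq hs Nat.prime_three).1 h6
      rcases (Nat.Prime.dvd_mul hs).1 hsk with h4 | h4
      · have := (Nat.prime_dvd_prime_iff_eq hs hr).1 h4
        omega
      · exact key h4 hh
    · exact key h6 hh

theorem hDO (hGNV : StGNV) (hXK : StXK) (hCP : StCP) : StDO := by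
  intro p _ n r hp2 hn hr hr5 hrd hmin
  have hcard : Nat.card (GaloisField p n) = p ^ n := GaloisField.card p n (by omega)
  have hfin : Finite (GaloisField p n) := by
    apply Nat.finite_of_card_ne_zero
    rw [hcard]
    exact pow_ne_zero _ (Fact.out (p := p.Prime)).ne_zero
  have h2 : (2 : GaloisField p n) ≠ 0 := by
    intro h
    have h3 : ((2 : ℕ) : GaloisField p n) = 0 := by exact_mod_cast h
    rw [CharP.cast_eq_zero_iff (GaloisField p n) p] at h3
    exact hp2 ((Nat.prime_dvd_prime_iff_eq (Fact.out (p := p.Prime)) Nat.prime_two).1 h3)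
  have hr1 : r ∣ Nat.card (GaloisField p n)ˣ := by
    rw [Nat.card_units, hcard]; exact hrd
  have : Fact r.Prime := ⟨hr⟩
  obtain ⟨v, hv⟩ := exists_prime_orderOf_dvd_card' r hr1
  have hv1 : v ≠ 1 := by
    rintro rfl
    rw [orderOf_one] at hv
    omega
  obtain ⟨x, k, l, h, hh1, -, -, hox, hxk, hxlk, hxh, hg⟩ := hXK (GaloisField p n) h2 v hv1
  have hrk : 2 * h ∣ r * k := by
    rw [← hox]
    apply orderOf_dvd_of_pow_eq_one
    rw [mul_comm, pow_mul, hxk, ← hv, pow_orderOf_eq_one]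
  obtain ⟨j, hcop, hg'⟩ := hCP l k h hh1 hg (do_num r k l h hr hr5 hrk hg)
  refine ⟨l + 2 * h * j, k, h, ⟨hh1, hr, by omega, hrk, hg', hcop⟩, x, hxh, ?_, ?_⟩
  · have h4 : x ^ (2 * h) = 1 := by rw [← hox]; exact pow_orderOf_eq_one x
    have h5 : (x : GaloisField p n) ^ (2 * h) = 1 := by
      rw [← Units.val_pow_eq_pow_val, h4, Units.val_one]
    rw [pow_add, pow_mul, h5, one_pow, mul_one]
    exact hxlk
  · refine hGNV p n hn v x k hxk ?_
    intro d hd1 hdn hpow
    apply hmin d hd1 hdn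
    rw [← hv]
    exact orderOf_dvd_of_pow_eq_one hpow

end Pool.Agent.Helper41.BP
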